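import Mathlib

/-!
# Cones in free groups
-/

set_option autoImplicit false

namespace Pool.Agent.Q208.EU

open FreeGroup

variable {X : Type} [DecidableEq X]

/-- `h` lies in the cone of `f`: there is no cancellation between `f` and `f⁻¹ h` -/
def Cone (f h : FreeGroup X) : Prop :=
  ∀ x ∈ (toWord f).getLast?, ∀ y ∈ (toWord (f⁻¹ * h)).head?, x.1 = y.1 → x.2 = y.2

theorem cone_congr {f f' h h' : FreeGroup X} (h1 : (toWord f).getLast? = (toWord f').getLast?)
    (h2 : f⁻¹ * h = f'⁻¹ * h') (hc : Cone f h) : Cone f' h' := by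
  unfold Cone at *
  rw [← h1, ← h2]
  exact hc

theorem cone_one (h : FreeGroup X) : Cone 1 h := by
  intro x hx
  simp at hx

theorem cone_word {f h : FreeGroup X} (hc : Cone f h) :
    toWord h = toWord f ++ toWord (f⁻¹ * h) := by
  have h1 : IsReduced (toWord f ++ toWord (f⁻¹ * h)) :=
    List.isChain_append.2 ⟨isReduced_toWord, isReduced_toWord, hc⟩
  have h2 : h = mk (toWord f ++ toWord (f⁻¹ * h)) := by
    rw [← mul_mk, mk_toWord, mk_toWord]; group
  conv_lhs => rw [h2]
  rw [toWord_mk, h1.reduce_eq]

theorem cone_norm {f h : FreeGroup X} (hc : Cone f h) : norm h = norm f + norm (f⁻¹ * h) := by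
  unfold FreeGroup.norm
  rw [cone_word hc, List.length_append]

theorem mk_cancel (K : List (X × Bool)) (x : X × Bool) :
    mk (K ++ [(x.1, !x.2)] ++ [x]) = mk K := by
  rw [List.append_assoc, ← mul_mk]
  have : mk ([(x.1, !x.2)] ++ [x]) = (1 : FreeGroup X) := by
    rw [← mul_mk]
    have : mk [(x.1, !x.2)] = (mk [x] : FreeGroup X)⁻¹ := by
      rw [inv_mk]; rfl
    rw [this, inv_mul_cancel]
  rw [this, mul_one]

theorem step (k : FreeGroup X) (x : X × Bool) :
    toWord (k * mk [x]) = toWord k ++ [x] ∨
      toWord k = toWord (k * mk [x]) ++ [(x.1, !x.2)] := by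
  have e0 : k * mk [x] = mk (toWord k ++ [x]) := by rw [← mul_mk, mk_toWord]
  by_cases h : IsReduced (toWord k ++ [x])
  · left
    rw [e0, toWord_mk, h.reduce_eq]
  · right
    rcases List.eq_nil_or_concat (toWord k) with h0 | ⟨K', y, hK⟩
    rotate_left
    rw [List.concat_eq_append] at hK
    rotate_right
    · exfalso; apply h; rw [h0]; exact IsReduced.singleton
    · have hred : IsReduced (K' ++ [y]) := by
        have : IsReduced (toWord k) := isReduced_toWord
        rwa [hK] at this
      have hxy : y = (x.1, !x.2) := by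
        by_contra hne
        apply h
        rw [hK]
        refine List.isChain_append.2 ⟨hred, List.isChain_singleton _, ?_⟩
        intro a ha b hb hab
        simp at ha hb
        subst ha; subst hb
        by_contra hc
        apply hne
        refine Prod.ext hab ?_
        show y.2 = !x.2
        cases hy : y.2 <;> cases hx : x.2 <;> simp_all
      rw [e0, hK, hxy, mk_cancel, toWord_mk]
      have hred' : IsReduced K' := by
        have := List.isChain_append.1 hred
        exact this.1
      rw [hred'.reduce_eq]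

theorem head_step (k : FreeGroup X) (x : X × Bool) (h : 2 ≤ (toWord k).length) :
    (toWord (k * mk [x])).head? = (toWord k).head? ∧
      (toWord k).length ≤ (toWord (k * mk [x])).length + 1 := by
  rcases step k x with h1 | h1
  · rw [h1]
    refine ⟨?_, by simp; omega⟩
    cases hk : toWord k with
    | nil => rw [hk] at h; simp at h
    | cons a l => simp
  · refine ⟨?_, by rw [h1]; simp⟩
    rw [h1] at h ⊢
    cases hk : toWord (k * mk [x]) with
    | nil => rw [hk] at h; simp at h
    | cons a l => simp

theorem head_mul (s : List (X × Bool)) : ∀ k : FreeGroup X, s.length < (toWord k).length →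
    (toWord (k * mk s)).head? = (toWord k).head? := by
  induction s with
  | nil => intro k _; rw [← FreeGroup.one_eq_mk, mul_one]
  | cons x s ih =>
    intro k hk
    have h2 : 2 ≤ (toWord k).length := by simp at hk; omega
    obtain ⟨h3, h4⟩ := head_step k x h2
    have e : k * mk (x :: s) = (k * mk [x]) * mk s := by
      rw [mul_assoc, mul_mk]; rfl
    rw [e, ih _ (by simp at hk; omega), h3]

/-- the distance to a point outside of the cone is at least the distance to the vertex -/
theorem cone_dist {f h h' : FreeGroup X} (hc : Cone f h) (hc' : ¬ Cone f h') :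
    norm (f⁻¹ * h) ≤ norm (h⁻¹ * h') := by
  by_contra hlt
  push Not at hlt
  apply hc'
  have h1 := head_mul (toWord (h⁻¹ * h')) (f⁻¹ * h) hlt
  rw [mk_toWord, mul_assoc, mul_inv_cancel_left] at h1
  intro x hx y hy
  rw [h1] at hy
  exact hc x hx y hy

theorem norm_symm (a b : FreeGroup X) : norm (a⁻¹ * b) = norm (b⁻¹ * a) := by
  rw [← norm_inv_eq]; congr 1; group

theorem norm_tri (a b d : FreeGroup X) : norm (a⁻¹ * d) ≤ norm (a⁻¹ * b) + norm (b⁻¹ * d) := by
  have : a⁻¹ * d = (a⁻¹ * b) * (b⁻¹ * d) := by group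
  rw [this]
  exact norm_mul_le _ _

/-- descending to the next cone -/
theorem cone_next {f h : FreeGroup X} {a : X × Bool} (hc : Cone f h)
    (ha : (toWord (f⁻¹ * h)).head? = some a) :
    Cone (f * mk [a]) h ∧ norm (f * mk [a]) = norm f + 1 := by
  obtain ⟨K, hK⟩ : ∃ K, toWord (f⁻¹ * h) = a :: K := by
    cases hk : toWord (f⁻¹ * h) with
    | nil => rw [hk] at ha; simp at ha
    | cons b l => rw [hk] at ha; simp at ha; exact ⟨l, by rw [ha]⟩
  have hred : IsReduced (a :: K) := hK ▸ isReduced_toWord
  have hK' : IsReduced K := by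
    rw [FreeGroup.IsReduced, List.isChain_cons] at hred
    exact hred.2
  have e1 : toWord (f * mk [a]) = toWord f ++ [a] := by
    rcases step f a with h1 | h1
    · exact h1
    · exfalso
      have := hc (a.1, !a.2) (by rw [h1]; simp) a (by rw [ha]; rfl) rfl
      simp at this
  have e2 : (f * mk [a])⁻¹ * h = mk K := by
    have e3 : f⁻¹ * h = mk (a :: K) := by rw [← hK, mk_toWord]
    have e4 : mk (a :: K) = mk [a] * mk K := by rw [mul_mk]; rfl
    have : (f * mk [a])⁻¹ * h = (mk [a])⁻¹ * (f⁻¹ * h) := by group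
    rw [this, e3, e4, inv_mul_cancel_left]
  refine ⟨?_, by unfold FreeGroup.norm; rw [e1]; simp⟩
  intro x hx y hy
  rw [e1] at hx
  rw [e2, toWord_mk, hK'.reduce_eq] at hy
  simp at hx
  subst hx
  rw [FreeGroup.IsReduced, List.isChain_cons] at hred
  exact hred.1 y hy

section Walk

variable {V : Type} {S : SimpleGraph V} (P : V → FreeGroup X) (R0 : ℕ)
  (hP : ∀ y z, S.Adj y z → norm ((P y)⁻¹ * P z) ≤ R0)

include hP in
theorem head_walk {f : FreeGroup X} {x y : V} (W : S.Walk x y)
    (hfar : ∀ z ∈ W.support, R0 < norm (f⁻¹ * P z)) :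
    ∀ z ∈ W.support, (toWord (f⁻¹ * P z)).head? = (toWord (f⁻¹ * P x)).head? := by
  induction W with
  | nil => intro z hz; simp at hz; rw [hz]
  | @cons x v y h W ih =>
    intro z hz
    have h1 : (toWord (f⁻¹ * P v)).head? = (toWord (f⁻¹ * P x)).head? := by
      have h2 := hP _ _ h
      have h3 := hfar x (by simp)
      have h4 := head_mul (toWord ((P x)⁻¹ * P v)) (f⁻¹ * P x) (lt_of_le_of_lt h2 h3)
      rw [mk_toWord, mul_assoc, mul_inv_cancel_left] at h4
      exact h4
    rw [SimpleGraph.Walk.support_cons, List.mem_cons] at hz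
    rcases hz with rfl | hz
    · rfl
    · rw [ih (fun z hz => hfar z (by simp [hz])) z hz, h1]

include hP in
/-- the smallest cone containing a walk -/
theorem exists_meet {x y : V} (W : S.Walk x y) :
    ∃ f : FreeGroup X, (∀ z ∈ W.support, Cone f (P z)) ∧
      ∃ z ∈ W.support, norm (f⁻¹ * P z) ≤ R0 := by
  by_contra hcon
  push Not at hcon
  have key : ∀ n : ℕ, ∃ f : FreeGroup X, norm f = n ∧ ∀ z ∈ W.support, Cone f (P z) := by
    intro n
    induction n with
    | zero => exact ⟨1, by simp, fun z _ => cone_one _⟩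
    | succ n ih =>
      obtain ⟨f, hf, hc⟩ := ih
      have hfar := hcon f hc
      have hh := head_walk P R0 hP W hfar
      obtain ⟨a, ha⟩ : ∃ a, (toWord (f⁻¹ * P x)).head? = some a := by
        have h0 := hfar x (by simp)
        cases hk : toWord (f⁻¹ * P x) with
        | nil => unfold FreeGroup.norm at h0; rw [hk] at h0; simp at h0
        | cons a l => exact ⟨a, by simp⟩
      refine ⟨f * mk [a], ?_, fun z hz => ?_⟩
      · rw [(cone_next (hc x (by simp)) ha).2, hf]
      · exact (cone_next (hc z hz) (by rw [hh z hz, ha])).1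
  obtain ⟨f, hf, hc⟩ := key (norm (P x) + 1)
  have := cone_norm (hc x (by simp))
  omega

/-- the last entrance of a walk into a set -/
theorem last_entrance (Cs : V → Prop) {u x : V} (W : S.Walk u x) (hx : Cs x) :
    ∃ (z : V) (q : S.Walk z x) (q' : S.Walk u z), (∀ y ∈ q.support, Cs y) ∧
      ((z = u ∧ q'.length = 0) ∨ ∃ a, ¬ Cs a ∧ S.Adj a z) ∧ q'.length + q.length = W.length := by
  induction W with
  | @nil u =>
    exact ⟨u, SimpleGraph.Walk.nil, SimpleGraph.Walk.nil, by simpa using hx, Or.inl ⟨rfl, rfl⟩, by simp⟩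
  | @cons u v x h W ih =>
    obtain ⟨z, q, q', h1, h2, h3⟩ := ih hx
    rcases h2 with h2 | h2
    · obtain ⟨h2, h20⟩ := h2
      subst h2
      by_cases hu : Cs u
      · refine ⟨u, SimpleGraph.Walk.cons h q, SimpleGraph.Walk.nil, ?_, Or.inl ⟨rfl, rfl⟩, ?_⟩
        · intro y hy
          rw [SimpleGraph.Walk.support_cons, List.mem_cons] at hy
          rcases hy with rfl | hy
          · exact hu
          · exact h1 y hy
        · simp; omega
      · exact ⟨z, q, SimpleGraph.Walk.cons h q', h1, Or.inr ⟨u, hu, h⟩, by simp; omega⟩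
    · exact ⟨z, q, SimpleGraph.Walk.cons h q', h1, Or.inr h2, by simp; omega⟩

end Walk

/-- a finitely generated free group has a finite basis -/
theorem finite_of_fg {Y : Type} (h : Group.FG (FreeGroup Y)) : Finite Y := by
  obtain ⟨s, hs⟩ := (Group.fg_def.1 h)
  have : Finite (FreeGroup Y →* Multiplicative (ZMod 2)) := by
    refine Finite.of_injective (β := s → Multiplicative (ZMod 2)) (fun φ x => φ x.1) ?_
    intro φ ψ hφ
    refine MonoidHom.eq_of_eqOn_dense hs ?_
    intro x hx
    exact congrFun hφ ⟨x, hx⟩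
  have h2 : Finite (Y → Multiplicative (ZMod 2)) :=
    Finite.of_equiv _ FreeGroup.lift.symm
  by_contra hinf
  rw [not_finite_iff_infinite] at hinf
  have : Infinite (Y → Multiplicative (ZMod 2)) := by infer_instance
  exact not_finite (Y → Multiplicative (ZMod 2))
end Pool.Agent.Q208.EU
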