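import Pool.Agent.Q208.EU.Free
import Pool.Agent.Q38.IM.Basic

/-!
# Least closed subgraphs of Cayley graphs of virtually free groups: translation and uniformity
-/

set_option autoImplicit false

namespace Pool.Agent.Q208.EU

open Pool.Agent.Q38.IM (Word)

section Paths

variable {G : Type} [Group G] {A : Type} (ρ : A × Bool → G)

/-- the vertices `(h, none)` and edges `(h, some l)` of the path with label `w` from `g` -/
def elts : G → Word A → List (G × Option (A × Bool))
  | g, [] => [(g, none)]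
  | g, l :: w => (g, some l) :: elts (g * ρ l) w

/-- the value of a word -/
def rv (w : Word A) : G := (w.map ρ).prod

/-- the path with label `w` from `g` is in `Γ` -/
def Pth (Γ : Set (G × Option (A × Bool))) (g : G) (w : Word A) : Prop :=
  ∀ t ∈ elts ρ g w, t ∈ Γ

/-- `Γ` is a subgraph of the Cayley graph (edges come in inverse pairs) -/
def IsGr (Γ : Set (G × Option (A × Bool))) : Prop :=
  ∀ g l, (g, some l) ∈ Γ → (g, none) ∈ Γ ∧ (g * ρ l, none) ∈ Γ ∧
    (g * ρ l, some (l.1, !l.2)) ∈ Γ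

/-- closed under the relations -/
def Closed (R : Set (Word A × Word A)) (Γ : Set (G × Option (A × Bool))) : Prop :=
  IsGr ρ Γ ∧ ∀ u v, (u, v) ∈ R → ∀ g, Pth ρ Γ g u ↔ Pth ρ Γ g v

variable {ρ}

theorem rv_nil : rv ρ [] = 1 := rfl

theorem rv_cons (l : A × Bool) (w : Word A) : rv ρ (l :: w) = ρ l * rv ρ w := by
  simp [rv]

theorem rv_append (u v : Word A) : rv ρ (u ++ v) = rv ρ u * rv ρ v := by
  simp [rv]

theorem elts_trans (h g : G) (w : Word A) :
    elts ρ (h * g) w = (elts ρ g w).map fun t => (h * t.1, t.2) := by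
  induction w generalizing g with
  | nil => simp [elts]
  | cons l w ih => simp only [elts, List.map_cons, mul_assoc]; rw [ih]

theorem pth_trans {Γ : Set (G × Option (A × Bool))} {h g : G} {w : Word A} :
    Pth ρ Γ (h * g) w ↔ ∀ t ∈ elts ρ g w, (h * t.1, t.2) ∈ Γ := by
  unfold Pth
  rw [elts_trans]
  simp only [List.mem_map]
  constructor
  · intro H t ht
    exact H _ ⟨t, ht, rfl⟩
  · rintro H _ ⟨t, ht, rfl⟩
    exact H t ht

/-- the end of an edge of a path is the start of the next element -/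
theorem edge_end {g : G} {w : Word A} {t : G × Option (A × Bool)} (ht : t ∈ elts ρ g w)
    {l : A × Bool} (hl : t.2 = some l) : ∃ t' ∈ elts ρ g w, t'.1 = t.1 * ρ l := by
  induction w generalizing g with
  | nil =>
    simp only [elts, List.mem_singleton] at ht
    rw [ht] at hl; simp at hl
  | cons a w ih =>
    simp only [elts, List.mem_cons] at ht
    rcases ht with rfl | ht
    · simp only [Option.some.injEq] at hl
      subst hl
      cases w with
      | nil => exact ⟨(g * ρ a, none), by simp [elts], rfl⟩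
      | cons b w => exact ⟨(g * ρ a, some b), by simp [elts], rfl⟩
    · obtain ⟨t', h1, h2⟩ := ih ht
      exact ⟨t', by simp only [elts, List.mem_cons]; exact Or.inr h1, h2⟩

/-- both ends are in `C` -/
def InC (ρ : A × Bool → G) (C : G → Prop) (t : G × Option (A × Bool)) : Prop :=
  C t.1 ∧ ∀ l, t.2 = some l → C (t.1 * ρ l)

/-- **Translation.** -/
theorem transfer {R : Set (Word A × Word A)} {Γ : Set (G × Option (A × Bool))} {w0 : Word A}
    (hΓ : Closed ρ R Γ) (hw0 : Pth ρ Γ 1 w0)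
    (hmin : ∀ Γ', Closed ρ R Γ' → Pth ρ Γ' 1 w0 → Γ ⊆ Γ')
    (C near : G → Prop) (h : G)
    (ha : ∀ t ∈ Γ, near t.1 → (h * t.1, t.2) ∈ Γ)
    (hb : ∀ g l, C g → ¬ C (g * ρ l) → near g)
    (hb' : ∀ g l, ¬ C g → C (g * ρ l) → near (g * ρ l))
    (hρ : ∀ a b, ρ (a, !b) = (ρ (a, b))⁻¹)
    (hc : ∀ u v, (u, v) ∈ R → ∀ g, (∀ t, (t ∈ elts ρ g u ∨ t ∈ elts ρ g v) → C t.1) ∨
      (∀ t, (t ∈ elts ρ g u ∨ t ∈ elts ρ g v) → C t.1 → near t.1))
    (hd : ∀ t ∈ elts ρ 1 w0, C t.1 → near t.1) :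
    ∀ t ∈ Γ, InC ρ C t → (h * t.1, t.2) ∈ Γ := by
  set Γ' : Set (G × Option (A × Bool)) := {t | t ∈ Γ ∧ (InC ρ C t → (h * t.1, t.2) ∈ Γ)} with hΓ'
  have hsub : Γ' ⊆ Γ := fun t ht => ht.1
  have key : Γ ⊆ Γ' := by
    apply hmin
    · refine ⟨?_, ?_⟩
      · intro g l hg
        obtain ⟨hg1, hg2⟩ := hg
        obtain ⟨h1, h2, h3⟩ := hΓ.1 g l hg1
        have hcase : C g → C (g * ρ l) → (h * g, none) ∈ Γ ∧ (h * (g * ρ l), none) ∈ Γ ∧
            (h * (g * ρ l), some (l.1, !l.2)) ∈ Γ := by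
          intro c1 c2
          have h4 := hg2 ⟨c1, fun l' hl' => by
            simp only [Option.some.injEq] at hl'; rw [← hl']; exact c2⟩
          have h5 := hΓ.1 _ _ h4
          rw [mul_assoc] at h5
          exact h5
        refine ⟨⟨h1, fun hC => ?_⟩, ⟨h2, fun hC => ?_⟩, ⟨h3, fun hC => ?_⟩⟩
        · by_cases c2 : C (g * ρ l)
          · exact (hcase hC.1 c2).1
          · exact ha _ h1 (hb g l hC.1 c2)
        · by_cases c1 : C g
          · exact (hcase c1 hC.1).2.1
          · exact ha _ h2 (hb' g l c1 hC.1)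
        · have c1 : C g := by
            have := hC.2 (l.1, !l.2) rfl
            rw [hρ, mul_inv_cancel_right] at this
            exact this
          exact (hcase c1 hC.1).2.2
      · have one : ∀ u v, (∀ g, Pth ρ Γ g u → Pth ρ Γ g v) → (∀ g,
            (∀ t, (t ∈ elts ρ g u ∨ t ∈ elts ρ g v) → C t.1) ∨
            (∀ t, (t ∈ elts ρ g u ∨ t ∈ elts ρ g v) → C t.1 → near t.1)) → ∀ g,
            Pth ρ Γ' g u → Pth ρ Γ' g v := by
          intro u v huv hcc g hu
          have hu' : Pth ρ Γ g u := fun t ht => hsub (hu t ht)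
          have hv' := huv g hu'
          rcases hcc g with hcg | hcg
          · have h1 : Pth ρ Γ (h * g) u := by
              rw [pth_trans]
              intro t ht
              refine (hu t ht).2 ⟨hcg t (Or.inl ht), fun l hl => ?_⟩
              obtain ⟨t', ht', e⟩ := edge_end ht hl
              rw [← e]
              exact hcg t' (Or.inl ht')
            have h2 := huv _ h1
            rw [pth_trans] at h2
            intro t ht
            exact ⟨hv' t ht, fun _ => h2 t ht⟩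
          · intro t ht
            exact ⟨hv' t ht, fun hC => ha t (hv' t ht) (hcg t (Or.inr ht) hC.1)⟩
        intro u v huv g
        constructor
        · exact one u v (fun g => (hΓ.2 u v huv g).1) (hc u v huv) g
        · refine one v u (fun g => (hΓ.2 u v huv g).2) (fun g => ?_) g
          rcases hc u v huv g with h1 | h1
          · exact Or.inl fun t ht => h1 t ht.symm
          · exact Or.inr fun t ht => h1 t ht.symm
    · intro t ht
      exact ⟨hw0 t ht, fun hC => ha t (hw0 t ht) (hd t ht hC.1)⟩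
  intro t ht hC
  exact (key ht).2 hC

end Paths

/-- uniform bounds from finitely many types -/
theorem unif_of_finite {T κ : Type} [Finite κ] (key : T → κ) (Q : T → ℕ → Prop)
    (h : ∀ t t' n, key t = key t' → Q t n → Q t' n) :
    ∃ K, ∀ t, (∃ n, Q t n) → ∃ n ≤ K, Q t n := by
  classical
  have : Fintype κ := Fintype.ofFinite κ
  have h1 : ∀ k : κ, ∃ N : ℕ, ∀ t n, key t = k → Q t n → ∃ n' ≤ N, Q t n' := by
    intro k
    by_cases hk : ∃ t n, key t = k ∧ Q t n
    · obtain ⟨t, n, h2, h3⟩ := hk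
      refine ⟨n, fun t' n' h4 _ => ⟨n, le_rfl, h t t' n (h2.trans h4.symm) h3⟩⟩
    · push Not at hk
      exact ⟨0, fun t n h2 h3 => absurd h3 (hk t n h2)⟩
  choose N hN using h1
  refine ⟨Finset.univ.sup N, fun t ⟨n, hn⟩ => ?_⟩
  obtain ⟨n', h2, h3⟩ := hN (key t) t n rfl hn
  exact ⟨n', h2.trans (Finset.le_sup (f := N) (Finset.mem_univ _)), h3⟩

open FreeGroup

section Main

variable {G : Type} [Group G] {A : Type} [Finite A] {X : Type} [Finite X] [DecidableEq X]
  (ρ : A × Bool → G) (j : FreeGroup X →* G) (p : G → FreeGroup X)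
  (hp : ∀ f g, p (j f * g) = f * p g) (hfin : {g | p g = 1}.Finite)

include hp in
theorem hp' (f : FreeGroup X) (g : G) : p ((j f)⁻¹ * g) = f⁻¹ * p g := by
  rw [← _root_.map_inv, hp]

include hfin hp in
theorem ball_finite (B : ℕ) : {g : G | norm (p g) ≤ B}.Finite := by
  have h1 : {f : FreeGroup X | norm f ≤ B}.Finite := by
    have h2 : {l : List (X × Bool) | l.length ≤ B}.Finite := List.finite_length_le _ _
    refine Set.Finite.of_finite_image (f := toWord) (h2.subset ?_)
      (fun a _ b _ h => toWord_injective h)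
    rintro _ ⟨f, hf, rfl⟩
    exact hf
  refine ((h1.prod hfin).image fun q => j q.1 * q.2).subset ?_
  intro g hg
  refine ⟨(p g, (j (p g))⁻¹ * g), ⟨hg, ?_⟩, ?_⟩
  · show p ((j (p g))⁻¹ * g) = 1
    rw [hp' j p hp, inv_mul_cancel]
  · show j (p g) * ((j (p g))⁻¹ * g) = g
    rw [mul_inv_cancel_left]

include hp in
/-- there is a Lipschitz constant -/
theorem exists_lip (hfin : {g | p g = 1}.Finite) :
    ∃ R0 : ℕ, ∀ g l, norm ((p g)⁻¹ * p (g * ρ l)) ≤ R0 := by
  classical
  have h1 : ((hfin.toFinset ×ˢ (Set.finite_univ (α := A × Bool)).toFinset)).Nonempty ∨ True :=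
    Or.inr trivial
  refine ⟨(hfin.toFinset ×ˢ (Set.finite_univ (α := A × Bool)).toFinset).sup
    (fun q => norm ((p q.1)⁻¹ * p (q.1 * ρ q.2))), fun g l => ?_⟩
  have e1 : p ((j (p g))⁻¹ * g) = 1 := by rw [hp' j p hp, inv_mul_cancel]
  have e2 : norm ((p g)⁻¹ * p (g * ρ l)) =
      norm ((p ((j (p g))⁻¹ * g))⁻¹ * p ((j (p g))⁻¹ * g * ρ l)) := by
    rw [mul_assoc (j (p g))⁻¹, hp' j p hp, hp' j p hp]
    congr 1
    group
  rw [e2]
  refine Finset.le_sup (f := fun q : G × (A × Bool) => norm ((p q.1)⁻¹ * p (q.1 * ρ q.2)))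
    (b := ((j (p g))⁻¹ * g, l)) ?_
  rw [Finset.mem_product]
  exact ⟨hfin.mem_toFinset.2 e1, by simp⟩

variable {ρ p}

theorem elts_dist {R0 : ℕ} (hR0 : ∀ g l, norm ((p g)⁻¹ * p (g * ρ l)) ≤ R0) (g : G)
    (w : Word A) : ∀ t ∈ elts ρ g w, norm ((p g)⁻¹ * p t.1) ≤ w.length * R0 := by
  induction w generalizing g with
  | nil => intro t ht; simp only [elts, List.mem_singleton] at ht; rw [ht]; simp
  | cons l w ih =>
    intro t ht
    simp only [elts, List.mem_cons] at ht
    rcases ht with rfl | ht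
    · simp
    · have h1 := ih _ t ht
      have h2 := norm_tri (p g) (p (g * ρ l)) (p t.1)
      have h3 := hR0 g l
      have : (l :: w).length * R0 = w.length * R0 + R0 := by simp; ring
      omega

include hp in
/-- **Uniformity.** -/
theorem uniform (hfin : {g | p g = 1}.Finite) {R : Set (Word A × Word A)} (hRfin : R.Finite)
    {Γ : Set (G × Option (A × Bool))} {w0 : Word A}
    (hΓ : Closed ρ R Γ) (hw0 : Pth ρ Γ 1 w0)
    (hmin : ∀ Γ', Closed ρ R Γ' → Pth ρ Γ' 1 w0 → Γ ⊆ Γ')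
    (hρ : ∀ a b, ρ (a, !b) = (ρ (a, b))⁻¹) (R1 : ℕ) :
    ∃ K : ℕ, ∀ (f : FreeGroup X) (g1 g2 : G), norm (f⁻¹ * p g1) ≤ R1 → norm (f⁻¹ * p g2) ≤ R1 →
      (∃ u, Pth ρ Γ g1 u ∧ (∀ t ∈ elts ρ g1 u, Cone f (p t.1)) ∧ g1 * rv ρ u = g2) →
      ∃ u, u.length ≤ K ∧ Pth ρ Γ g1 u ∧ g1 * rv ρ u = g2 := by
  classical
  obtain ⟨R0, hR0⟩ := exists_lip ρ j p hp hfin
  -- bound on the lengths of the relations
  obtain ⟨m, hm⟩ : ∃ m : ℕ, ∀ u v, (u, v) ∈ R → u.length ≤ m ∧ v.length ≤ m := by
    refine ⟨hRfin.toFinset.sup fun q => q.1.length + q.2.length, fun u v huv => ?_⟩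
    have := Finset.le_sup (f := fun q : Word A × Word A => q.1.length + q.2.length)
      (hRfin.mem_toFinset.2 huv)
    simp only at this
    omega
  set B : ℕ := R1 + R0 + 2 * (m * R0) + norm (p 1) + w0.length * R0 with hB
  have hballfin := ball_finite j p hp hfin B
  let Ball : Type := {g : G // norm (p g) ≤ B}
  have : Finite Ball := hballfin
  let T : Type := {q : FreeGroup X × G × G // norm (q.1⁻¹ * p q.2.1) ≤ R1 ∧
    norm (q.1⁻¹ * p q.2.2) ≤ R1}
  let κ : Type := Option (X × Bool) × Set (Ball × Option (A × Bool)) × Ball × Ball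
  let key : T → κ := fun q => ((toWord q.1.1).getLast?,
    {t | (j q.1.1 * t.1.1, t.2) ∈ Γ},
    ⟨(j q.1.1)⁻¹ * q.1.2.1, by rw [hp' j p hp]; have := q.2.1; omega⟩,
    ⟨(j q.1.1)⁻¹ * q.1.2.2, by rw [hp' j p hp]; have := q.2.2; omega⟩)
  let Q : T → ℕ → Prop := fun q n => ∃ u, u.length = n ∧ Pth ρ Γ q.1.2.1 u ∧
    (∀ t ∈ elts ρ q.1.2.1 u, Cone q.1.1 (p t.1)) ∧ q.1.2.1 * rv ρ u = q.1.2.2
  have hkey : ∀ t t' n, key t = key t' → Q t n → Q t' n := by
    rintro ⟨⟨f, g1, g2⟩, ht1, ht2⟩ ⟨⟨f', g1', g2'⟩, ht1', ht2'⟩ n hk ⟨u, hu1, hu2, hu3, hu4⟩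
    have k1 : (toWord f).getLast? = (toWord f').getLast? := congrArg (fun z : κ => z.1) hk
    have k2 : {t : Ball × Option (A × Bool) | (j f * t.1.1, t.2) ∈ Γ} =
      {t : Ball × Option (A × Bool) | (j f' * t.1.1, t.2) ∈ Γ} :=
      congrArg (fun z : κ => z.2.1) hk
    have k3 : (j f)⁻¹ * g1 = (j f')⁻¹ * g1' := congrArg (fun z : κ => z.2.2.1.1) hk
    have k4 : (j f)⁻¹ * g2 = (j f')⁻¹ * g2' := congrArg (fun z : κ => z.2.2.2.1) hk
    simp only at hu1 hu2 hu3 hu4 ht1 ht2 ht1' ht2'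
    set h : G := j (f' * f⁻¹) with hh
    have e1 : g1' = h * g1 := by
      have : g1' = j f' * ((j f')⁻¹ * g1') := by rw [mul_inv_cancel_left]
      rw [this, ← k3, hh, _root_.map_mul, _root_.map_inv, mul_assoc]
    have e2 : g2' = h * g2 := by
      have : g2' = j f' * ((j f')⁻¹ * g2') := by rw [mul_inv_cancel_left]
      rw [this, ← k4, hh, _root_.map_mul, _root_.map_inv, mul_assoc]
    have hph : ∀ g, f'⁻¹ * p (h * g) = f⁻¹ * p g := by
      intro g
      rw [hh, hp]; group
    have htr := transfer hΓ hw0 hmin (fun g => Cone f (p g)) (fun g => norm (f⁻¹ * p g) ≤ B) h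
      ?_ ?_ ?_ hρ ?_ ?_
    · refine ⟨u, hu1, ?_, ?_, ?_⟩
      · show Pth ρ Γ g1' u
        rw [e1, pth_trans]
        intro t ht
        refine htr t (hu2 t ht) ⟨hu3 t ht, fun l hl => ?_⟩
        obtain ⟨t', ht', e⟩ := edge_end ht hl
        rw [← e]
        exact hu3 t' ht'
      · show ∀ t ∈ elts ρ g1' u, Cone f' (p t.1)
        rw [e1, elts_trans]
        intro t ht
        rw [List.mem_map] at ht
        obtain ⟨t', ht', rfl⟩ := ht
        exact cone_congr k1 (hph _).symm (hu3 t' ht')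
      · show g1' * rv ρ u = g2'
        rw [e1, e2, mul_assoc, hu4]
    · -- near the vertex the types agree
      intro t ht hn
      have hn' : norm (p ((j f)⁻¹ * t.1)) ≤ B := by rw [hp' j p hp]; exact hn
      have h1 : ((⟨(j f)⁻¹ * t.1, hn'⟩ : Ball), t.2) ∈
          {t : Ball × Option (A × Bool) | (j f * t.1.1, t.2) ∈ Γ} := by
        show (j f * ((j f)⁻¹ * t.1), t.2) ∈ Γ
        rw [mul_inv_cancel_left]
        exact ht
      rw [k2] at h1
      have h2 : (j f' * ((j f)⁻¹ * t.1), t.2) ∈ Γ := h1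
      rw [hh, _root_.map_mul, _root_.map_inv, mul_assoc]
      exact h2
    · intro g l c1 c2
      have h1 := cone_dist c1 c2
      have h2 := hR0 g l
      show norm (f⁻¹ * p g) ≤ B
      omega
    · intro g l c1 c2
      have h1 := cone_dist c2 c1
      have h2 := hR0 g l
      rw [norm_symm] at h2
      show norm (f⁻¹ * p (g * ρ l)) ≤ B
      omega
    · intro u v huv g
      by_cases hall : ∀ t, (t ∈ elts ρ g u ∨ t ∈ elts ρ g v) → Cone f (p t.1)
      · exact Or.inl hall
      · right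
        push Not at hall
        obtain ⟨s, hs, hs'⟩ := hall
        have hd : ∀ t, (t ∈ elts ρ g u ∨ t ∈ elts ρ g v) → norm ((p g)⁻¹ * p t.1) ≤ m * R0 := by
          rintro t (ht | ht)
          · exact (elts_dist hR0 g u t ht).trans (Nat.mul_le_mul_right _ (hm u v huv).1)
          · exact (elts_dist hR0 g v t ht).trans (Nat.mul_le_mul_right _ (hm u v huv).2)
        intro t ht hc
        have h1 := cone_dist hc hs'
        have h2 := norm_tri (p t.1) (p g) (p s.1)
        have h3 := hd s hs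
        have h4 := hd t ht
        rw [norm_symm] at h4
        show norm (f⁻¹ * p t.1) ≤ B
        omega
    · intro t ht hc
      have h1 := elts_dist hR0 1 w0 t ht
      show norm (f⁻¹ * p t.1) ≤ B
      by_cases h1' : Cone f (p 1)
      · have h2 := cone_norm h1'
        have h3 := norm_tri f (p 1) (p t.1)
        omega
      · have h2 := cone_dist hc h1'
        rw [norm_symm] at h1
        omega
  obtain ⟨K, hK⟩ := unif_of_finite key Q hkey
  refine ⟨K, fun f g1 g2 h1 h2 ⟨u, hu1, hu2, hu3⟩ => ?_⟩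
  obtain ⟨n, hn, u', hu1', hu2', hu3', hu4'⟩ := hK ⟨(f, g1, g2), h1, h2⟩ ⟨u.length, u, rfl, hu1, hu2, hu3⟩
  exact ⟨u', by omega, hu2', hu4'⟩

end Main

end Pool.Agent.Q208.EU
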