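import Pool.Agent.Q208.EU.Geo
import Pool.Agent.Q38.IM.Graph
import Pool.Agent.Q281.TL.Tree

/-!
# Schützenberger graphs of E-unitary inverse monoids with virtually free group image
-/

set_option autoImplicit false

namespace Pool.Agent.Q208.EU

open Pool.Agent.Q38.IM

section Alg

variable {A : Type} {R : Set (Word A × Word A)}

theorem cancel (y : InvMon R) (s : Word A) (t : InvMon R) (h : y * val R s * t = y) :
    y * val R s * val R (invW s) = y := by
  obtain ⟨q, rfl⟩ := val_surj y
  set a := val R s with ha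
  set b := val R (invW s) with hb
  set x := val R q with hx
  set e := val R (invW q) * x with he
  have hxe : x * e = x := by rw [he, ← mul_assoc]; exact val_reg q
  have h1 : e * (a * t) = e := by
    rw [he, mul_assoc, ← mul_assoc x a t, h]
  have h2 : a * b * (a * t) = a * t := by
    rw [← mul_assoc]; congr 1; exact val_reg s
  have hc : e * (a * b) = a * b * e := by
    have := val_comm (R := R) (invW q) s
    rw [invW_invW] at this
    exact this
  have h3 : e * (a * b) = e := by
    calc e * (a * b) = a * b * e := hc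
      _ = a * b * (e * (a * t)) := by rw [h1]
      _ = (a * b * e) * (a * t) := by simp only [mul_assoc]
      _ = (e * (a * b)) * (a * t) := by rw [hc]
      _ = e * (a * b * (a * t)) := by simp only [mul_assoc]
      _ = e * (a * t) := by rw [h2]
      _ = e := h1
  calc x * a * b = x * e * a * b := by rw [hxe]
    _ = x * (e * (a * b)) := by simp only [mul_assoc]
    _ = x := by rw [h3, hxe]

theorem comp_between {x y : InvMon R} {u v : Word A} (hy : y ∈ Comp x)
    (h : y * val R (u ++ v) ∈ Comp x) : y * val R u ∈ Comp x := by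
  obtain ⟨⟨a, ha⟩, -⟩ := hy
  obtain ⟨-, b, hb⟩ := h
  refine ⟨⟨a ++ u, by rw [ha, val_append, mul_assoc]⟩, ⟨v ++ b, ?_⟩⟩
  rw [hb, val_append u v, val_append v b]
  simp only [mul_assoc]

theorem comp_reach {x y z : InvMon R} (hy : y ∈ Comp x) (hz : z ∈ Comp x) : Reach y z := by
  obtain ⟨-, b, hb⟩ := hy
  obtain ⟨⟨c, hc⟩, -⟩ := hz
  exact ⟨b ++ c, by rw [val_append, ← mul_assoc, ← hb, ← hc]⟩

variable {G : Type} [Group G] (π : InvMon R →* G)

/-- the images of the letters -/
def rho (l : A × Bool) : G := π (val R [l])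

theorem pi_val (u : Word A) : π (val R u) = rv (rho π) u := by
  induction u with
  | nil => rw [val_nil, map_one, rv_nil]
  | cons l u ih =>
    have : val R (l :: u) = val R [l] * val R u := val_append [l] u
    rw [this, map_mul, ih, rv_cons]; rfl

theorem rho_inv (a : A) (b : Bool) : rho π (a, !b) = (rho π (a, b))⁻¹ := by
  have h := congrArg π (val_reg (R := R) [(a, b)])
  rw [map_mul, map_mul] at h
  have e : invW [(a, b)] = [(a, !b)] := by simp [invW]
  rw [e] at h
  change rho π (a, b) * rho π (a, !b) * rho π (a, b) = rho π (a, b) at h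
  have h2 : rho π (a, b) * rho π (a, !b) = 1 := by
    have := congrArg (fun z => z * (rho π (a, b))⁻¹) h
    simpa using this
  exact (eq_inv_of_mul_eq_one_right h2)

variable (hE : ∀ x, π x = 1 → x * x = x)

include hE in
theorem pi_inj {x y z : InvMon R} (hy : y ∈ Comp x) (hz : z ∈ Comp x) (h : π y = π z) :
    y = z := by
  obtain ⟨u, hu⟩ := comp_reach hy hz
  obtain ⟨v, hv⟩ := comp_reach hz hy
  have h1 : π (val R u) = 1 := by
    have := congrArg π hu
    rw [map_mul, ← h] at this
    simpa using this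
  have h2 : π (val R v) = 1 := by
    have := congrArg π hv
    rw [map_mul, h] at this
    simpa using this
  have i1 := hE _ h1
  have i2 := hE _ h2
  have hc := idem_comm i1 i2
  set a := val R u
  set b := val R v
  have h3 : y = y * a * b := by rw [← hu]; exact hv
  have h4 : y * a = y := by
    calc y * a = y * a * b * a := by rw [← h3]
      _ = y * (a * (b * a)) := by simp only [mul_assoc]
      _ = y * (a * (a * b)) := by rw [hc]
      _ = y * ((a * a) * b) := by simp only [mul_assoc]
      _ = y * a * b := by rw [i1, mul_assoc]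
      _ = y := h3.symm
  rw [hu, h4]

/-- the Schützenberger graph as a subgraph of the Cayley graph of the group -/
def Del (e : InvMon R) : Set (G × Option (A × Bool)) :=
  {t | ∃ y ∈ Comp e, π y = t.1 ∧ ∀ l, t.2 = some l → y * val R [l] ∈ Comp e}

theorem pth_cons {ρ : A × Bool → G} {Γ : Set (G × Option (A × Bool))} {g : G} {l : A × Bool}
    {w : Word A} : Pth ρ Γ g (l :: w) ↔ (g, some l) ∈ Γ ∧ Pth ρ Γ (g * ρ l) w := by
  unfold Pth
  rw [elts, List.forall_mem_cons]

include hE in
theorem pth_iff {e : InvMon R} (u : Word A) : ∀ y ∈ Comp e,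
    (Pth (rho π) (Del π e) (π y) u ↔ y * val R u ∈ Comp e) := by
  induction u with
  | nil =>
    intro y hy
    rw [val_nil, mul_one]
    refine ⟨fun _ => hy, fun _ t ht => ?_⟩
    simp only [elts, List.mem_singleton] at ht
    rw [ht]
    exact ⟨y, hy, rfl, fun l hl => by simp at hl⟩
  | cons l u ih =>
    intro y hy
    have e1 : y * val R (l :: u) = y * val R [l] * val R u := by
      rw [mul_assoc]; rfl
    have e2 : π (y * val R [l]) = π y * rho π l := map_mul _ _ _
    rw [pth_cons]
    constructor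
    · rintro ⟨⟨y', hy', h1, h2⟩, h3⟩
      have : y' = y := pi_inj π hE hy' hy h1
      subst this
      have h4 := h2 l rfl
      rw [← e2] at h3
      rw [e1]
      exact (ih _ h4).1 h3
    · intro h
      have h4 : y * val R [l] ∈ Comp e := comp_between (u := [l]) (v := u) hy h
      refine ⟨⟨y, hy, rfl, fun l' hl' => ?_⟩, ?_⟩
      · simp only [Option.some.injEq] at hl'
        rw [← hl']; exact h4
      · rw [← e2]
        rw [e1] at h
        exact (ih _ h4).2 h

theorem pth_mem {ρ : A × Bool → G} {Γ : Set (G × Option (A × Bool))} {g : G} {w : Word A}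
    (h : Pth ρ Γ g w) : ∃ o, (g, o) ∈ Γ := by
  cases w with
  | nil => exact ⟨none, h _ (by simp [elts])⟩
  | cons l w => exact ⟨some l, h _ (by simp [elts])⟩

include hE in
theorem del_closed (e : InvMon R) : Closed (rho π) R (Del π e) := by
  refine ⟨?_, ?_⟩
  · rintro g l ⟨y, hy, rfl, h⟩
    have h1 := h l rfl
    obtain ⟨t, ht⟩ := comp_reach h1 hy
    have e2 : π (y * val R [l]) = π y * rho π l := map_mul _ _ _
    refine ⟨⟨y, hy, rfl, fun l hl => by simp at hl⟩, ⟨y * val R [l], h1, e2, fun l hl => by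
      simp at hl⟩, ⟨y * val R [l], h1, e2, fun l' hl' => ?_⟩⟩
    simp only [Option.some.injEq] at hl'
    rw [← hl']
    have h3 := cancel y [l] _ ht.symm
    have e3 : invW [l] = [(l.1, !l.2)] := by simp [invW]
    rw [e3] at h3
    rw [h3]
    exact hy
  · have one : ∀ u v, val R u = val R v → ∀ g, Pth (rho π) (Del π e) g u →
        Pth (rho π) (Del π e) g v := by
      intro u v huv g hu
      obtain ⟨o, y, hy, h1, -⟩ := pth_mem hu
      simp only at h1
      subst h1
      rw [pth_iff π hE _ y hy] at hu ⊢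
      rwa [← huv]
    intro u v huv g
    have := val_eq_of_mem huv
    exact ⟨one u v this g, one v u this.symm g⟩

/-- the base point -/
theorem base_mem (w : Word A) : val R w ∈ Comp (val R w * val R (invW w)) :=
  ⟨⟨w, (val_reg w).symm⟩, ⟨invW w, rfl⟩⟩

theorem pi_base (w : Word A) : π (val R w * val R (invW w)) = 1 := by
  have h := congrArg π (val_reg (R := R) w)
  rw [map_mul] at h
  have := congrArg (fun z => z * (π (val R w))⁻¹) h
  simpa using this

include hE in
theorem del_base (w : Word A) :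
    Pth (rho π) (Del π (val R w * val R (invW w))) 1 w := by
  have h := pth_iff π hE w _ (self_mem (val R w * val R (invW w)))
  rw [pi_base] at h
  rw [h, val_reg]
  exact base_mem w

open Classical in
/-- the action of a letter on the vertices of a subgraph -/
noncomputable def act {ρ : A × Bool → G} (hρ : ∀ a b, ρ (a, !b) = (ρ (a, b))⁻¹)
    {Γ : Set (G × Option (A × Bool))} (hΓ : IsGr ρ Γ) (l : A × Bool) :
    {g : G // (g, (none : Option (A × Bool))) ∈ Γ} ≃. {g : G // (g, (none : Option (A × Bool))) ∈ Γ} where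
  toFun z := if h : (z.1, some l) ∈ Γ then some ⟨z.1 * ρ l, (hΓ _ _ h).2.1⟩ else none
  invFun z := if h : (z.1, some (l.1, !l.2)) ∈ Γ then
    some ⟨z.1 * ρ (l.1, !l.2), (hΓ _ _ h).2.1⟩ else none
  inv := by
    rintro ⟨a, ha⟩ ⟨b, hb⟩
    simp only [Option.mem_def]
    constructor
    · intro h
      split_ifs at h with h1
      simp only [Option.some.injEq, Subtype.mk.injEq] at h
      have h2 := (hΓ _ _ h1).2.2
      simp only [Bool.not_not] at h2
      rw [h] at h2
      rw [dif_pos h2]
      simp only [Option.some.injEq, Subtype.mk.injEq]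
      rw [← h, hρ]; simp
    · intro h
      split_ifs at h with h1
      simp only [Option.some.injEq, Subtype.mk.injEq] at h
      have h2 := (hΓ _ _ h1).2.2
      rw [h] at h2
      rw [dif_pos h2]
      simp only [Option.some.injEq, Subtype.mk.injEq]
      rw [← h, hρ]; simp

open Classical in
theorem act_iff {ρ : A × Bool → G} (hρ : ∀ a b, ρ (a, !b) = (ρ (a, b))⁻¹)
    {Γ : Set (G × Option (A × Bool))} (hΓ : IsGr ρ Γ) (l : A × Bool)
    (z z' : {g : G // (g, (none : Option (A × Bool))) ∈ Γ}) :
    act hρ hΓ l z = some z' ↔ (z.1, some l) ∈ Γ ∧ z'.1 = z.1 * ρ l := by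
  show (if h : (z.1, some l) ∈ Γ then some (⟨z.1 * ρ l, (hΓ _ _ h).2.1⟩ :
    {g : G // (g, (none : Option (A × Bool))) ∈ Γ}) else none) = some z' ↔ _
  constructor
  · intro h
    split_ifs at h with h1
    simp only [Option.some.injEq] at h
    exact ⟨h1, by rw [← h]⟩
  · rintro ⟨h1, h2⟩
    rw [dif_pos h1]
    simp only [Option.some.injEq]
    exact Subtype.ext h2.symm

theorem run_iff {ρ : A × Bool → G} (hρ : ∀ a b, ρ (a, !b) = (ρ (a, b))⁻¹)
    {Γ : Set (G × Option (A × Bool))} (hΓ : IsGr ρ Γ) (u : Word A)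
    (z z' : {g : G // (g, (none : Option (A × Bool))) ∈ Γ}) :
    run (act hρ hΓ) u z = some z' ↔ Pth ρ Γ z.1 u ∧ z'.1 = z.1 * rv ρ u := by
  induction u generalizing z with
  | nil =>
    rw [run_nil, rv_nil, mul_one]
    show some z = some z' ↔ _
    simp only [Option.some.injEq]
    constructor
    · rintro rfl
      refine ⟨fun t ht => ?_, rfl⟩
      simp only [elts, List.mem_singleton] at ht
      rw [ht]; exact z.2
    · rintro ⟨-, h⟩
      exact Subtype.ext h.symm
  | cons l u ih =>
    rw [run_cons, PEquiv.trans_eq_some, pth_cons, rv_cons]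
    constructor
    · rintro ⟨b, h1, h2⟩
      rw [act_iff] at h1
      rw [ih] at h2
      obtain ⟨h3, h4⟩ := h1
      rw [h4] at h2
      exact ⟨⟨h3, h2.1⟩, by rw [h2.2, mul_assoc]⟩
    · rintro ⟨⟨h1, h2⟩, h3⟩
      refine ⟨⟨z.1 * ρ l, (hΓ _ _ h1).2.1⟩, (act_iff hρ hΓ l _ _).2 ⟨h1, rfl⟩, ?_⟩
      rw [ih]
      exact ⟨h2, by rw [h3, mul_assoc]⟩

theorem elts_last {ρ : A × Bool → G} (g : G) (u : Word A) : (g * rv ρ u, none) ∈ elts ρ g u := by
  induction u generalizing g with
  | nil => simp [elts, rv_nil]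
  | cons l u ih =>
    rw [elts, List.mem_cons, rv_cons, ← mul_assoc]
    exact Or.inr (ih _)

theorem elts_last' {ρ : A × Bool → G} (g : G) (u : Word A) (l : A × Bool) :
    (g * rv ρ u, some l) ∈ elts ρ g (u ++ [l]) := by
  induction u generalizing g with
  | nil => simp [elts, rv_nil]
  | cons a u ih =>
    rw [List.cons_append, elts, List.mem_cons, rv_cons, ← mul_assoc]
    exact Or.inr (ih _)

/-- the Schützenberger graph is the least closed subgraph which contains the path `w` -/
theorem del_min (w : Word A) (Γ : Set (G × Option (A × Bool))) (hΓ : Closed (rho π) R Γ)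
    (hw : Pth (rho π) Γ 1 w) : Del π (val R w * val R (invW w)) ⊆ Γ := by
  set e := val R w * val R (invW w) with he
  have hρ := rho_inv π
  have h1 : ((1 : G), (none : Option (A × Bool))) ∈ Γ := by
    obtain ⟨o, ho⟩ := pth_mem hw
    cases o with
    | none => exact ho
    | some l => exact (hΓ.1 _ _ ho).1
  obtain ⟨φ, hφ1, hφ2⟩ := exists_act (R := R) (act hρ hΓ.1) (fun a b => by
      ext z z'
      rfl) (fun u v huv => by
      ext z z'
      rw [run_iff, run_iff, hΓ.2 u v huv]
      have : rv (rho π) u = rv (rho π) v := by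
        rw [← pi_val, ← pi_val, val_eq_of_mem huv]
      rw [this])
  set z1 : {g : G // (g, (none : Option (A × Bool))) ∈ Γ} := ⟨1, h1⟩ with hz1
  have hez : φ e z1 = some z1 := by
    rw [he, hφ2, hφ1, hφ1, run_invW _ (fun a b => by ext z z'; rfl), PEquiv.trans_eq_some]
    have hend : ((1 : G) * rv (rho π) w, (none : Option (A × Bool))) ∈ Γ := hw _ (elts_last 1 w)
    have : run (act hρ hΓ.1) w z1 = some ⟨_, hend⟩ := (run_iff hρ hΓ.1 w _ _).2 ⟨hw, rfl⟩
    exact ⟨_, this, (PEquiv.eq_some_iff _).2 this⟩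
  have key : ∀ u : Word A, e * val R u ∈ Comp e → Pth (rho π) Γ 1 u := by
    intro u hu
    obtain ⟨v, hv⟩ := hu.2
    have h6 : φ (e * val R u * val R v) z1 = some z1 := by rw [← hv]; exact hez
    rw [hφ2, hφ2, PEquiv.trans_eq_some] at h6
    obtain ⟨z2, h2, -⟩ := h6
    rw [PEquiv.trans_eq_some] at h2
    obtain ⟨z3, h3, h4⟩ := h2
    rw [hez] at h3
    simp only [Option.some.injEq] at h3
    rw [← h3, hφ1, run_iff] at h4
    exact h4.1
  rintro ⟨g, o⟩ ⟨y, hy, rfl, h⟩
  obtain ⟨u, hu⟩ := hy.1
  have e1 : π y = 1 * rv (rho π) u := by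
    rw [hu, map_mul, pi_base, pi_val]
  show (π y, o) ∈ Γ
  rw [e1]
  cases o with
  | none =>
    refine key u (by rw [← hu]; exact hy) _ (elts_last _ _)
  | some l =>
    have h2 := h l rfl
    rw [hu, mul_assoc, ← val_append] at h2
    exact key _ h2 _ (elts_last' _ _ _)

end Alg

section Coord

/-- coordinates on a group with a free subgroup of finite index -/
theorem exists_coord {G : Type} [Group G] [Group.FG G] (H : Subgroup G) [H.FiniteIndex]
    (hfree : IsFreeGroup H) : ∃ (X : Type) (_ : Finite X) (j : FreeGroup X →* G)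
      (p : G → FreeGroup X), (∀ f g, p (j f * g) = f * p g) ∧ {g | p g = 1}.Finite := by
  obtain ⟨X, ⟨b⟩⟩ := hfree.nonempty_basis
  have hfg : Group.FG H := Subgroup.fg_of_index_ne_zero H
  have hfgX : Group.FG (FreeGroup X) := Group.fg_of_surjective (f := b.repr.toMonoidHom)
    b.repr.surjective
  have hX : Finite X := finite_of_fg hfgX
  have hk : ∀ g : G, g * (QuotientGroup.mk (s := H) g⁻¹).out ∈ H := by
    intro g
    obtain ⟨h, hh⟩ := QuotientGroup.mk_out_eq_mul H g⁻¹
    rw [hh, mul_inv_cancel_left]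
    exact h.2
  refine ⟨X, hX, H.subtype.comp b.repr.symm.toMonoidHom,
    fun g => b.repr ⟨g * (QuotientGroup.mk (s := H) g⁻¹).out, hk g⟩, ?_, ?_⟩
  · intro f g
    have e1 : (QuotientGroup.mk (s := H) ((H.subtype.comp b.repr.symm.toMonoidHom) f * g)⁻¹) =
        QuotientGroup.mk (s := H) g⁻¹ := by
      rw [QuotientGroup.eq]
      have : ((((H.subtype.comp b.repr.symm.toMonoidHom) f * g)⁻¹)⁻¹ * g⁻¹ : G) =
          (b.repr.symm f : G) := by
        simp
      rw [this]
      exact (b.repr.symm f).2
    have e2 : (⟨((H.subtype.comp b.repr.symm.toMonoidHom) f * g) *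
        (QuotientGroup.mk (s := H) ((H.subtype.comp b.repr.symm.toMonoidHom) f * g)⁻¹).out,
          hk _⟩ : H) = b.repr.symm f * ⟨g * (QuotientGroup.mk (s := H) g⁻¹).out, hk g⟩ := by
      apply Subtype.ext
      simp only [e1]
      show (b.repr.symm f : G) * g * _ = (b.repr.symm f : G) * (g * _)
      rw [mul_assoc]
    show b.repr _ = _
    rw [e2, map_mul, MulEquiv.apply_symm_apply]
  · have : Finite (G ⧸ H) := inferInstance
    refine (Set.finite_range (fun q : G ⧸ H => q.out⁻¹)).subset ?_
    intro g hg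
    have h1 : (⟨g * (QuotientGroup.mk (s := H) g⁻¹).out, hk g⟩ : H) = 1 := by
      have : b.repr ⟨g * (QuotientGroup.mk (s := H) g⁻¹).out, hk g⟩ = 1 := hg
      rwa [map_eq_one_iff _ b.repr.injective] at this
    have h2 : g * (QuotientGroup.mk (s := H) g⁻¹).out = 1 := congrArg Subtype.val h1
    exact ⟨QuotientGroup.mk (s := H) g⁻¹, (eq_inv_of_mul_eq_one_left h2).symm⟩

end Coord

section Main

open FreeGroup

variable {A : Type} {R : Set (Word A × Word A)} {G : Type} [Group G] (π : InvMon R →* G)

theorem adj_letter {e : InvMon R} {y z : Comp e} (h : (schutz e).Adj y z) :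
    ∃ l : A × Bool, (z : InvMon R) = y * val R [l] := by
  unfold schutz at h
  rw [SimpleGraph.fromRel_adj] at h
  rcases h.2 with h | ⟨l, hl⟩
  · exact h
  · obtain ⟨t, ht⟩ := comp_reach y.2 z.2
    have h3 := cancel (z : InvMon R) [l] (val R t) (by rw [← hl]; exact ht.symm)
    have e3 : invW [l] = [(l.1, !l.2)] := by simp [invW]
    rw [e3, ← hl] at h3
    exact ⟨_, h3.symm⟩

theorem dist_word {e : InvMon R} (u : Word A) : ∀ (s t : Comp e), (s : InvMon R) * val R u = t →
    (schutz e).dist s t ≤ u.length := by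
  induction u with
  | nil =>
    intro s t h
    rw [val_nil, mul_one] at h
    have : s = t := Subtype.ext h
    subst this
    simp
  | cons l u ih =>
    intro s t h
    have e1 : (s : InvMon R) * val R (l :: u) = s * val R [l] * val R u := by
      rw [mul_assoc]; rfl
    have h4 : (s : InvMon R) * val R [l] ∈ Comp e :=
      comp_between (u := [l]) (v := u) s.2 (by
        show (s : InvMon R) * val R (l :: u) ∈ Comp e
        rw [h]; exact t.2)
    have h5 := ih ⟨_, h4⟩ t (by rw [← h, e1])
    by_cases hs : s = ⟨_, h4⟩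
    · rw [← hs] at h5
      simp; omega
    · have hadj : (schutz e).Adj s ⟨_, h4⟩ := by
        unfold schutz
        rw [SimpleGraph.fromRel_adj]
        exact ⟨hs, Or.inl ⟨l, rfl⟩⟩
      have h6 := (schutz_connected e).dist_triangle (u := s) (v := ⟨_, h4⟩) (w := t)
      have h7 := SimpleGraph.dist_eq_one_iff_adj.2 hadj
      simp
      omega

theorem walk_word {X : Type} [DecidableEq X] (p : G → FreeGroup X) {e : InvMon R}
    (f : FreeGroup X) {s t : Comp e} (W : (schutz e).Walk s t)
    (hW : ∀ z ∈ W.support, Cone f (p (π z))) :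
    ∃ u : Word A, (s : InvMon R) * val R u = t ∧
      ∀ q ∈ elts (rho π) (π s) u, Cone f (p q.1) := by
  induction W with
  | @nil s =>
    refine ⟨[], by rw [val_nil, mul_one], fun q hq => ?_⟩
    simp only [elts, List.mem_singleton] at hq
    rw [hq]
    exact hW s (by simp)
  | @cons s v t h W ih =>
    obtain ⟨l, hl⟩ := adj_letter h
    obtain ⟨u, hu1, hu2⟩ := ih (fun z hz => hW z (by simp [hz]))
    refine ⟨l :: u, ?_, fun q hq => ?_⟩
    · have e1 : (s : InvMon R) * val R (l :: u) = s * val R [l] * val R u := by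
        rw [mul_assoc]; rfl
      rw [e1, ← hl, hu1]
    · rw [elts, List.mem_cons] at hq
      rcases hq with rfl | hq
      · exact hW s (by simp)
      · have e2 : π v = π s * rho π l := by rw [hl, _root_.map_mul]; rfl
        rw [← e2] at hq
        exact hu2 q hq

theorem qiTree_base [Finite A] (hR : R.Finite) (hsurj : Function.Surjective π)
    (hE : ∀ x, π x = 1 → x * x = x) (H : Subgroup G) (hH : H.FiniteIndex)
    (hfree : IsFreeGroup H) (w : Word A) :
    Q281.TL.QITree (schutz (val R w * val R (invW w))) := by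
  classical
  have hfg : Group.FG G := by
    rw [Group.fg_iff]
    refine ⟨Set.range (rho π), ?_, Set.finite_range _⟩
    rw [eq_top_iff]
    rintro g -
    obtain ⟨x, rfl⟩ := hsurj g
    obtain ⟨u, rfl⟩ := val_surj x
    rw [pi_val]
    induction u with
    | nil => exact one_mem _
    | cons l u ih =>
      rw [rv_cons]
      exact mul_mem (Subgroup.subset_closure ⟨l, rfl⟩) ih
  obtain ⟨X, hX, j, p, hp, hfin⟩ := exists_coord H hfree
  obtain ⟨R0, hR0⟩ := exists_lip (rho π) j p hp hfin
  set e := val R w * val R (invW w) with he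
  obtain ⟨K, hK⟩ := uniform (j := j) hp hfin hR (del_closed π hE e) (del_base π hE w)
    (del_min π w) (rho_inv π) (R0 + norm (p 1))
  set S := schutz e with hS
  have hconn : S.Connected := schutz_connected e
  set P : Comp e → FreeGroup X := fun y => p (π y) with hPdef
  have hP : ∀ y z, S.Adj y z → norm ((P y)⁻¹ * P z) ≤ R0 := by
    intro y z hyz
    obtain ⟨l, hl⟩ := adj_letter hyz
    show norm ((p (π y))⁻¹ * p (π z)) ≤ R0
    rw [hl, _root_.map_mul]
    exact hR0 _ l
  have hcone : ∀ (f : FreeGroup X) (s t : Comp e), norm (f⁻¹ * P s) ≤ R0 + norm (p 1) →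
      norm (f⁻¹ * P t) ≤ R0 + norm (p 1) → (∃ W : S.Walk s t, ∀ z ∈ W.support, Cone f (P z)) →
      S.dist s t ≤ K := by
    rintro f s t hs ht ⟨W, hW⟩
    obtain ⟨u, hu1, hu2⟩ := walk_word π p f W hW
    have g1 : Pth (rho π) (Del π e) (π s) u := by
      rw [pth_iff π hE u _ s.2, hu1]
      exact t.2
    have g2 : π s * rv (rho π) u = π t := by
      rw [← pi_val, ← _root_.map_mul, hu1]
    obtain ⟨u', h1, h2, h3⟩ := hK f (π s) (π t) hs ht ⟨u, g1, hu2, g2⟩
    rw [pth_iff π hE u' _ s.2] at h2
    have h4 : (s : InvMon R) * val R u' = t := by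
      apply pi_inj π hE h2 t.2
      rw [_root_.map_mul, pi_val, h3]
    exact (dist_word u' s t h4).trans h1
  let o : Comp e := ⟨e, self_mem e⟩
  have hPo : P o = p 1 := by
    show p (π e) = p 1
    rw [he, pi_base]
  refine Q281.TL.qiTree_of_bottleneck (o := o) hconn (4 * K) ?_
  rintro x y ⟨hl, γ, hγ⟩
  obtain ⟨f, hf, z0, hz0, hnear⟩ := exists_meet P R0 hP γ
  -- points of geodesics near the vertex of the cone
  have side : ∀ x : Comp e, S.dist o x = S.dist o y → (∃ W : S.Walk x z0, ∀ z ∈ W.support,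
      Cone f (P z)) → S.dist o x ≤ S.dist o z0 → S.dist x z0 ≤ 2 * K := by
    rintro x hx ⟨W, hW⟩ hlev
    obtain ⟨q, hq⟩ := hconn.exists_walk_length_eq_dist o x
    obtain ⟨z1, q1, q2, h1, h2, h3⟩ := last_entrance (fun y => Cone f (P y)) q (hW x (by simp))
    have hz1 : norm (f⁻¹ * P z1) ≤ R0 + norm (p 1) := by
      rcases h2 with ⟨h2, -⟩ | ⟨a, ha, haz⟩
      · have h4 : Cone f (P z1) := h1 z1 (by simp)
        rw [h2, hPo] at h4 ⊢
        have := cone_norm h4
        omega
      · have h4 : Cone f (P z1) := h1 z1 (by simp)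
        have h5 := cone_dist h4 ha
        have h6 := hP _ _ haz
        rw [norm_symm] at h6
        omega
    have hd : S.dist z1 z0 ≤ K := by
      refine hcone f z1 z0 hz1 (by omega) ⟨q1.append W, fun z hz => ?_⟩
      rw [SimpleGraph.Walk.mem_support_append_iff] at hz
      rcases hz with hz | hz
      · exact h1 z hz
      · exact hW z hz
    have d1 := SimpleGraph.dist_le q1
    have d2 := SimpleGraph.dist_le q2
    have d3 := hconn.dist_triangle (u := o) (v := z1) (w := z0)
    have d4 := hconn.dist_triangle (u := x) (v := z1) (w := z0)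
    have d5 : S.dist x z1 = S.dist z1 x := SimpleGraph.dist_comm
    omega
  have s1 : S.dist x z0 ≤ 2 * K := by
    refine side x hl ⟨γ.takeUntil z0 hz0, fun z hz => hf z ?_⟩ (hγ z0 hz0)
    exact SimpleGraph.Walk.support_takeUntil_subset _ _ hz
  have s2 : S.dist y z0 ≤ 2 * K := by
    refine side y rfl ⟨(γ.dropUntil z0 hz0).reverse, fun z hz => hf z ?_⟩
      (by rw [← hl]; exact hγ z0 hz0)
    rw [SimpleGraph.Walk.support_reverse, List.mem_reverse] at hz
    exact SimpleGraph.Walk.support_dropUntil_subset _ _ hz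
  have d4 := hconn.dist_triangle (u := x) (v := z0) (w := y)
  have d5 : S.dist z0 y = S.dist y z0 := SimpleGraph.dist_comm
  omega

/-- the Schützenberger graph of a set of vertices -/
theorem qi_congr {e x : InvMon R} (h : Comp e = Comp x) (hq : QITree (schutz e)) :
    QITree (schutz x) := by
  unfold schutz at *
  rw [← h]
  exact hq

theorem main [Finite A] (hR : R.Finite) (hsurj : Function.Surjective π)
    (hE : ∀ x, π x = 1 → x * x = x) (H : Subgroup G) (hH : H.FiniteIndex)
    (hfree : IsFreeGroup H) : TreeLike R := by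
  intro x
  refine ⟨schutz_connected x, ?_⟩
  obtain ⟨w, rfl⟩ := val_surj x
  have h1 := base_mem (R := R) w
  have h2 : Comp (val R w * val R (invW w)) = Comp (val R w) := by
    ext y
    obtain ⟨⟨a, ha⟩, ⟨b, hb⟩⟩ := h1
    constructor
    · rintro ⟨⟨c, hc⟩, ⟨d, hd⟩⟩
      refine ⟨⟨b ++ c, ?_⟩, ⟨d ++ a, ?_⟩⟩
      · rw [val_append, ← mul_assoc, ← hb, hc]
      · rw [val_append, ← mul_assoc, ← hd, ← ha]
    · rintro ⟨⟨c, hc⟩, ⟨d, hd⟩⟩
      refine ⟨⟨a ++ c, ?_⟩, ⟨d ++ b, ?_⟩⟩
      · rw [val_append, ← mul_assoc, ← ha, hc]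
      · rw [val_append, ← mul_assoc, ← hd, ← hb]
  refine qi_congr h2 ?_
  obtain ⟨T, HT, hT, f, C, hC1, hC2, hC3⟩ := qiTree_base π hR hsurj hE H hH hfree w
  refine ⟨T, HT, f, C, hT, fun x y => ⟨hC1 x y, hC2 x y⟩, fun t => ?_⟩
  obtain ⟨y, hy⟩ := hC3 t
  exact ⟨y, by rw [SimpleGraph.dist_comm]; exact hy⟩

end Main

end Pool.Agent.Q208.EU
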